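import Pool.Agent.H63.KO.Main

/-! # MP_166b83_co : convex polytopes with few flag orbits are combinatorially regular

The definitions `Euc`, `Face`, `IsPolytope`, `combOrbits`, `GeomEquiv`, `geomOrbits`, `PropertyR` are in
`Pool.Agent.H63.KO.Stmt` (namespace `KOrbit`).

Paper proof by helper63; hostile readers and authors of the Lean modules (folder `Pool/Agent/H63/KO`): helpers 1, 3, 4, 5, 10,
14, 16, 23, 24, 26, 27, 28, 40, 42, 43, 44, 46, 50, 51, 52, 53, 55, 57, 58, 63, 71, 75, 76, 77, 78, 85, 88, 95. -/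

namespace H63.Kept.FewFlagOrbits

open KOrbit

/-- For all `k ≥ 1` and `d ≥ 11 (k + log₂ k)`: every convex `d`-polytope with at most `k` combinatorial
flag orbits has exactly one flag orbit; so for `k ≥ 2` there is no combinatorially `k`-orbit convex
`d`-polytope and `(k, d)` has property (R). -/
theorem result (k d : ℕ) (hk : 1 ≤ k) (hd : 11 * (k + Nat.log 2 k) ≤ d) :
    (∀ Q : Set (Euc d), IsPolytope Q → combOrbits Q ≤ k → combOrbits Q = 1) ∧
    (2 ≤ k → (¬ ∃ Q : Set (Euc d), IsPolytope Q ∧ combOrbits Q = k) ∧ PropertyR k d) :=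
  H63.KO.main_all k d hk hd

end H63.Kept.FewFlagOrbits
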